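import Pool.Agent.W307.LS.Stm

set_option autoImplicit false

/-! Project LS (helper307): counting the admissible `d` by the pigeonhole principle. -/

namespace Pool.Agent.W131.LS
open Pool.Agent.W307.LS

theorem SS_prime {a b : ℤ} {p : ℕ} (h : p ∈ SS a b) :
    p.Prime ∧ p ≠ 2 ∧ (p : ℤ) ∣ a * b ∧ ¬ (p : ℤ) ^ 2 ∣ a * b := by
  unfold SS at h
  have h1 := Finset.mem_filter.1 h
  have h2 := Nat.dvd_of_mem_primeFactors h1.1
  refine ⟨Nat.prime_of_mem_primeFactors h1.1, h1.2.1, ?_, h1.2.2⟩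
  exact Int.natCast_dvd.2 h2

theorem BB_prime {a b : ℤ} {q : ℕ} (h : q ∈ BB a b) :
    q.Prime ∧ ((q : ℤ) ^ 2 ∣ a * b ∨ ¬ (q : ℤ) ∣ a * b) := by
  unfold BB at h
  have h1 := Finset.mem_filter.1 h
  refine ⟨Nat.prime_of_mem_primeFactors h1.1, ?_⟩
  rcases h1.2.2 with h2 | h2
  · exact Or.inl h2
  · exact Or.inr h2.2.1

theorem notMem {a b : ℤ} {p q : ℕ} (hp : p ∈ SS a b) (hq : q ∈ BB a b) : p ≠ q := by
  rintro rfl
  have h1 := SS_prime hp
  have h2 := BB_prime hq
  rcases h2.2 with h3 | h3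
  · exact h1.2.2.2 h3
  · exact h3 h1.2.2.1

/-- product of a set of primes -/
def pr (T : Finset ℕ) : ℕ := ∏ p ∈ T, p

theorem pr_odd {a b : ℤ} {T : Finset ℕ} (hT : T ⊆ SS a b) : pr T % 2 = 1 := by
  rw [← Nat.odd_iff]
  unfold pr
  induction T using Finset.induction_on with
  | empty =>
    rw [Finset.prod_empty]
    exact odd_one
  | insert p U hp ih =>
    rw [Finset.prod_insert hp]
    have h1 := SS_prime (hT (Finset.mem_insert_self p U))
    exact (h1.1.odd_of_ne_two h1.2.1).mul (ih ((Finset.subset_insert p U).trans hT))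

theorem pr_coprime {a b : ℤ} {T : Finset ℕ} (hT : T ⊆ SS a b) {q : ℕ} (hq : q ∈ BB a b) :
    Int.gcd (pr T : ℤ) (q : ℤ) = 1 := by
  have h1 : Nat.Coprime (pr T) q := by
    unfold pr
    apply Nat.Coprime.prod_left
    intro p hp
    have h2 := SS_prime (hT hp)
    exact (Nat.coprime_primes h2.1 (BB_prime hq).1).2 (notMem (hT hp) hq)
  exact_mod_cast h1

theorem pr_dvd {a b : ℤ} {T : Finset ℕ} (hT : T ⊆ SS a b) {p : ℕ} (hp : p.Prime)
    (h : p ∣ pr T) : p ∈ SS a b := by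
  unfold pr at h
  obtain ⟨u, hu, hpu⟩ := (hp.prime.dvd_finsetProd_iff _).1 h
  have h1 := SS_prime (hT hu)
  have h2 : p = u := (Nat.prime_dvd_prime_iff_eq hp h1.1).1 hpu
  rw [h2]
  exact hT hu

theorem pr_sqf {a b : ℤ} {T : Finset ℕ} (hT : T ⊆ SS a b) : Squarefree (pr T) := by
  unfold pr
  induction T using Finset.induction_on with
  | empty =>
    rw [Finset.prod_empty]
    exact squarefree_one
  | insert p U hp ih =>
    rw [Finset.prod_insert hp]
    have h1 := SS_prime (hT (Finset.mem_insert_self p U))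
    have hU := (Finset.subset_insert p U).trans hT
    have h2 : Nat.Coprime p (∏ x ∈ U, x) := by
      apply Nat.Coprime.prod_right
      intro u hu
      have h3 := SS_prime (hU hu)
      refine (Nat.coprime_primes h1.1 h3.1).2 ?_
      rintro rfl
      exact hp hu
    rw [Nat.squarefree_mul h2]
    exact ⟨h1.1.prime.squarefree, ih hU⟩

theorem pr_inj {a b : ℤ} {T U : Finset ℕ} (hT : T ⊆ SS a b) (hU : U ⊆ SS a b)
    (h : pr T = pr U) : T = U := by
  have h1 : (∏ p ∈ T, p).primeFactors = T :=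
    Nat.primeFactors_prod (fun p hp => (SS_prime (hT hp)).1)
  have h2 : (∏ p ∈ U, p).primeFactors = U :=
    Nat.primeFactors_prod (fun p hp => (SS_prime (hU hp)).1)
  unfold pr at h
  rw [← h1, ← h2, h]

/-- symmetric difference -/
def sdf (T U : Finset ℕ) : Finset ℕ := (T \ U) ∪ (U \ T)

theorem sdf_sub {a b : ℤ} {T U : Finset ℕ} (hT : T ⊆ SS a b) (hU : U ⊆ SS a b) :
    sdf T U ⊆ SS a b :=
  Finset.union_subset (Finset.sdiff_subset.trans hT) (Finset.sdiff_subset.trans hU)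

theorem sdf_inj {T T' U : Finset ℕ} (h : sdf T U = sdf T' U) : T = T' := by
  ext x
  have h1 : x ∈ sdf T U ↔ x ∈ sdf T' U := by rw [h]
  unfold sdf at h1
  rw [Finset.mem_union, Finset.mem_union, Finset.mem_sdiff, Finset.mem_sdiff, Finset.mem_sdiff,
    Finset.mem_sdiff] at h1
  tauto

theorem pr_sdf (T U : Finset ℕ) : pr (sdf T U) * pr (T ∩ U) ^ 2 = pr T * pr U := by
  unfold pr sdf
  have hd : Disjoint (T \ U) (U \ T) := by
    rw [Finset.disjoint_left]
    intro x hx hy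
    exact (Finset.mem_sdiff.1 hy).2 (Finset.mem_sdiff.1 hx).1
  rw [Finset.prod_union hd]
  have h1 := Finset.prod_inter_mul_prod_sdiff T U (fun p => p)
  have h2 := Finset.prod_inter_mul_prod_sdiff U T (fun p => p)
  rw [Finset.inter_comm U T] at h2
  rw [← h1, ← h2]
  ring

theorem sq_mod8 {n : ℕ} (h : n % 2 = 1) : n ^ 2 % 8 = 1 := by
  have h1 : n % 8 = 1 ∨ n % 8 = 3 ∨ n % 8 = 5 ∨ n % 8 = 7 := by omega
  rw [Nat.pow_mod]
  rcases h1 with h1 | h1 | h1 | h1 <;> rw [h1]

theorem mul_mod8 {m n : ℕ} (hm : m % 2 = 1) (h : m % 8 = n % 8) : m * n % 8 = 1 := by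
  have h1 := sq_mod8 hm
  rw [Nat.mul_mod, ← h, ← Nat.mul_mod, ← pow_two]
  exact h1

theorem sdf_mod8 {a b : ℤ} {T U : Finset ℕ} (hT : T ⊆ SS a b) (h : pr T % 8 = pr U % 8) :
    pr (sdf T U) % 8 = 1 := by
  have h1 := pr_sdf T U
  have h2 := mul_mod8 (pr_odd hT) h
  have h3 := sq_mod8 (pr_odd ((Finset.inter_subset_left (s₁ := T) (s₂ := U)).trans hT))
  rw [← h1, Nat.mul_mod, h3, mul_one, Nat.mod_mod] at h2
  exact h2

theorem sdf_jac {a b : ℤ} {T U : Finset ℕ} (hT : T ⊆ SS a b) (hU : U ⊆ SS a b) {q : ℕ}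
    (hq : q ∈ BB a b) (h : jacobiSym (pr T : ℤ) q = 1 ↔ jacobiSym (pr U : ℤ) q = 1) :
    jacobiSym (pr (sdf T U) : ℤ) q = 1 := by
  have h1 : ((pr (sdf T U) : ℤ)) * (pr (T ∩ U) : ℤ) ^ 2 = (pr T : ℤ) * (pr U : ℤ) := by
    exact_mod_cast pr_sdf T U
  have h2 := congrArg (fun z : ℤ => jacobiSym z q) h1
  have h3 : jacobiSym ((pr (sdf T U) : ℤ) * (pr (T ∩ U) : ℤ) ^ 2) q =
      jacobiSym ((pr T : ℤ) * (pr U : ℤ)) q := h2
  rw [jacobiSym.mul_left, jacobiSym.mul_left, jacobiSym.pow_left] at h3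
  have hI := jacobiSym.eq_one_or_neg_one
    (pr_coprime ((Finset.inter_subset_left (s₁ := T) (s₂ := U)).trans hT) hq)
  have hI2 : jacobiSym (pr (T ∩ U) : ℤ) q ^ 2 = 1 := by
    rcases hI with h4 | h4 <;> rw [h4] <;> norm_num
  rw [hI2, mul_one] at h3
  rw [h3]
  have hT' := jacobiSym.eq_one_or_neg_one (pr_coprime hT hq)
  have hU' := jacobiSym.eq_one_or_neg_one (pr_coprime hU hq)
  rcases hT' with h4 | h4
  · rw [h4, h.1 h4, mul_one]
  · rcases hU' with h5 | h5
    · have h6 := h.2 h5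
      rw [h6] at h4
      norm_num at h4
    · rw [h4, h5]
      norm_num

/-- the invariants -/
noncomputable def inv (a b : ℤ) (T : Finset ℕ) : ℕ × Finset ℕ :=
  (pr T % 8, (BB a b).filter (fun q => jacobiSym (pr T : ℤ) q = 1))

theorem dcnt : DCNT := by
  intro a b _ _ _
  set s := (SS a b).powerset with hs
  set t := ({1, 3, 5, 7} : Finset ℕ) ×ˢ (BB a b).powerset with ht
  have hmaps : ∀ T ∈ s, inv a b T ∈ t := by
    intro T hT
    rw [hs, Finset.mem_powerset] at hT
    rw [ht, Finset.mem_product]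
    constructor
    · show pr T % 8 ∈ ({1, 3, 5, 7} : Finset ℕ)
      have h1 := pr_odd hT
      have h2 : pr T % 8 = 1 ∨ pr T % 8 = 3 ∨ pr T % 8 = 5 ∨ pr T % 8 = 7 := by omega
      rcases h2 with h2 | h2 | h2 | h2 <;> rw [h2] <;> decide
    · exact Finset.mem_powerset.2 (Finset.filter_subset _ _)
  have htne : t.Nonempty := ⟨(1, ∅), Finset.mem_product.2 ⟨by decide, Finset.empty_mem_powerset _⟩⟩
  obtain ⟨y, hy, hmax⟩ := Finset.exists_max_image t
    (fun y => (s.filter (fun T => inv a b T = y)).card) htne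
  set F := s.filter (fun T => inv a b T = y) with hF
  have hcard : s.card ≤ F.card * t.card :=
    Finset.card_le_mul_card_image_of_maps_to hmaps F.card hmax
  have hscard : s.card = 2 ^ (SS a b).card := Finset.card_powerset _
  have htcard : t.card = 2 ^ ((BB a b).card + 2) := by
    rw [ht, Finset.card_product, Finset.card_powerset, pow_add, mul_comm]
    congr 1
  have hFne : F.Nonempty := by
    rw [Finset.nonempty_iff_ne_empty]
    intro h
    rw [h, Finset.card_empty, zero_mul, hscard] at hcard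
    have : 0 < 2 ^ (SS a b).card := by positivity
    omega
  obtain ⟨U, hU⟩ := hFne
  have hmem : ∀ T ∈ F, T ⊆ SS a b ∧ inv a b T = y := by
    intro T hT
    have h1 := Finset.mem_filter.1 hT
    exact ⟨Finset.mem_powerset.1 h1.1, h1.2⟩
  have hU' := hmem U hU
  refine ⟨F.image (fun T => pr (sdf T U)), ?_, ?_⟩
  · intro d hd
    obtain ⟨T, hT, rfl⟩ := Finset.mem_image.1 hd
    have hT' := hmem T hT
    have hinv : inv a b T = inv a b U := hT'.2.trans hU'.2.symm
    have h8 : pr T % 8 = pr U % 8 := congrArg Prod.fst hinv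
    have hfil : (BB a b).filter (fun q => jacobiSym (pr T : ℤ) q = 1) =
      (BB a b).filter (fun q => jacobiSym (pr U : ℤ) q = 1) := congrArg Prod.snd hinv
    have hsub := sdf_sub hT'.1 hU'.1
    refine ⟨pr_sqf hsub, sdf_mod8 hT'.1 h8, fun p hp hpd => pr_dvd hsub hp hpd, ?_⟩
    intro q hq
    apply sdf_jac hT'.1 hU'.1 hq
    constructor
    · intro h
      have h1 : q ∈ (BB a b).filter (fun q => jacobiSym (pr T : ℤ) q = 1) :=
        Finset.mem_filter.2 ⟨hq, h⟩
      rw [hfil] at h1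
      exact (Finset.mem_filter.1 h1).2
    · intro h
      have h1 : q ∈ (BB a b).filter (fun q => jacobiSym (pr U : ℤ) q = 1) :=
        Finset.mem_filter.2 ⟨hq, h⟩
      rw [← hfil] at h1
      exact (Finset.mem_filter.1 h1).2
  · have himg : (F.image (fun T => pr (sdf T U))).card = F.card := by
      apply Finset.card_image_of_injOn
      intro T hT T' hT' h
      have h1 := hmem T (Finset.mem_coe.1 hT)
      have h2 := hmem T' (Finset.mem_coe.1 hT')
      exact sdf_inj (pr_inj (sdf_sub h1.1 hU'.1) (sdf_sub h2.1 hU'.1) h)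
    rw [himg, ← htcard, ← hscard, mul_comm]
    exact hcard

end Pool.Agent.W131.LS
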