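import Pool.Agent.W786.Ls.Stm

set_option autoImplicit false

namespace Pool.Agent.W131.LS

open MeasureTheory Set Complex Pool.Agent.W786.Ls
open scoped ENNReal NNReal

lemma tau_pos (t : ℝ) : 0 < tau t := Real.sqrt_pos.2 (by positivity)

lemma tau_sq (t : ℝ) : tau t ^ 2 = 1 + 4 * t ^ 2 := Real.sq_sqrt (by positivity)

/-- the unimodular factor times a bounded one -/
noncomputable def U1 (t s lam ξ : ℝ) : ℂ :=
  cexp (((Real.pi * s ^ 2 / tau t ^ 2 : ℝ) : ℂ) + 2 * Real.pi * I *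
    ((2 * ξ * s / tau t - t * s ^ 2 / tau t ^ 2 - 2 * t * s * lam / tau t ^ 2 : ℝ) : ℂ))

lemma norm_U1 (t s lam ξ : ℝ) (hs : |s| ≤ tau t) : ‖U1 t s lam ξ‖ ≤ Real.exp Real.pi := by
  unfold U1
  rw [Complex.norm_exp]
  apply Real.exp_le_exp.2
  have h1 : (((Real.pi * s ^ 2 / tau t ^ 2 : ℝ) : ℂ) + 2 * Real.pi * I *
    ((2 * ξ * s / tau t - t * s ^ 2 / tau t ^ 2 - 2 * t * s * lam / tau t ^ 2 : ℝ) : ℂ)).re
      = Real.pi * s ^ 2 / tau t ^ 2 := by
    rw [Complex.add_re, Complex.ofReal_re]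
    have : (2 * Real.pi * I *
      ((2 * ξ * s / tau t - t * s ^ 2 / tau t ^ 2 - 2 * t * s * lam / tau t ^ 2 : ℝ) : ℂ))
      = ((2 * Real.pi * (2 * ξ * s / tau t - t * s ^ 2 / tau t ^ 2
          - 2 * t * s * lam / tau t ^ 2) : ℝ) : ℂ) * I := by
      push_cast; ring
    rw [this, Complex.re_ofReal_mul, Complex.I_re]
    ring
  rw [h1, div_le_iff₀ (pow_pos (tau_pos t) 2)]
  have h2 : s ^ 2 ≤ tau t ^ 2 := by
    rw [← sq_abs s]
    exact pow_le_pow_left₀ (abs_nonneg s) hs 2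
  exact mul_le_mul_of_nonneg_left h2 Real.pi_pos.le

/-- the one-dimensional factor of `beta` -/
noncomputable def b1 (t lam ξ : ℝ) (k : ℤ) : ℂ :=
  cexp (-((Real.pi * ((k : ℝ) / 2 + lam) ^ 2 / (2 * tau t ^ 2) : ℝ) : ℂ) +
    2 * Real.pi * I * ((ξ * ((k : ℝ) / 2 + lam) / tau t -
      t * ((k : ℝ) / 2 + lam) ^ 2 / tau t ^ 2 : ℝ) : ℂ))

/-- the one-dimensional character -/
noncomputable def e1 (k : ℤ) (v : ℝ) : ℂ := cexp (Real.pi * I * (((k : ℝ) * v : ℝ) : ℂ))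

/-- the one-dimensional integrand -/
noncomputable def f1 (t s lam : ℝ) (k : ℤ) (ξ : ℝ) : ℂ :=
  ((Real.sqrt 2 * Real.exp (-2 * Real.pi * ξ ^ 2) : ℝ) : ℂ) * U1 t s lam ξ *
    (b1 t lam ξ k * e1 k (-(2 * t / tau t ^ 2) * s))

/-- the constant coefficient -/
noncomputable def dd (t s lam : ℝ) (k : ℤ) : ℂ :=
  ((Real.pi * s ^ 2 / tau t ^ 2 - Real.pi * ((k : ℝ) / 2 + lam) ^ 2 / (2 * tau t ^ 2) : ℝ) : ℂ) +
    2 * Real.pi * I * ((- (t * s ^ 2 / tau t ^ 2) - 2 * t * s * lam / tau t ^ 2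
      - t * ((k : ℝ) / 2 + lam) ^ 2 / tau t ^ 2 - t * s * k / tau t ^ 2 : ℝ) : ℂ)

/-- the linear coefficient -/
noncomputable def cc (t s lam : ℝ) (k : ℤ) : ℂ :=
  2 * Real.pi * I * (((2 * s + ((k : ℝ) / 2 + lam)) / tau t : ℝ) : ℂ)

lemma f1_eq (t s lam : ℝ) (k : ℤ) (ξ : ℝ) :
    f1 t s lam k ξ = (Real.sqrt 2 : ℂ) *
      cexp ((-2 * Real.pi : ℂ) * (ξ : ℂ) ^ 2 + cc t s lam k * ξ + dd t s lam k) := by
  unfold f1 U1 b1 e1 cc dd
  rw [Complex.ofReal_mul, Complex.ofReal_exp, ← Complex.exp_add, mul_assoc, mul_assoc,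
    ← Complex.exp_add, ← Complex.exp_add]
  congr 2
  push_cast
  ring

lemma re_neg : ((-2 * Real.pi : ℂ)).re < 0 := by
  have : (-2 * Real.pi : ℂ) = ((-2 * Real.pi : ℝ) : ℂ) := by push_cast; ring
  rw [this, Complex.ofReal_re]
  have := Real.pi_pos
  linarith

lemma f1_int (t s lam : ℝ) (k : ℤ) : Integrable (f1 t s lam k) := by
  have h : f1 t s lam k = fun ξ : ℝ => (Real.sqrt 2 : ℂ) *
      cexp ((-2 * Real.pi : ℂ) * (ξ : ℂ) ^ 2 + cc t s lam k * ξ + dd t s lam k) := by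
    funext ξ; exact f1_eq t s lam k ξ
  rw [h]
  exact (integrable_cexp_quadratic' re_neg _ _).const_mul _

lemma f1_integral (t s lam : ℝ) (k : ℤ) :
    ∫ ξ, f1 t s lam k ξ = Phi t (lam + s + (k : ℝ) / 2) := by
  have h : f1 t s lam k = fun ξ : ℝ => (Real.sqrt 2 : ℂ) *
      cexp ((-2 * Real.pi : ℂ) * (ξ : ℂ) ^ 2 + cc t s lam k * ξ + dd t s lam k) := by
    funext ξ; exact f1_eq t s lam k ξ
  rw [h, integral_const_mul, integral_cexp_quadratic re_neg]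
  have hpi : (Real.pi : ℂ) ≠ 0 := by exact_mod_cast Real.pi_ne_zero
  have h1 : (Real.pi : ℂ) / -(-2 * Real.pi : ℂ) = ((1 / 2 : ℝ) : ℂ) := by
    push_cast; field_simp
  have h2 : ((1 / 2 : ℝ) : ℂ) ^ (1 / 2 : ℂ) = ((Real.sqrt (1 / 2) : ℝ) : ℂ) := by
    rw [Real.sqrt_eq_rpow, Complex.ofReal_cpow (by norm_num)]
    norm_num
  have h3 : Real.sqrt 2 * Real.sqrt (1 / 2) = 1 := by
    rw [← Real.sqrt_mul (by norm_num)]
    norm_num
  rw [h1, h2, ← mul_assoc, ← Complex.ofReal_mul, h3, Complex.ofReal_one, one_mul]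
  unfold Phi
  congr 1
  have hT : (tau t : ℂ) ≠ 0 := by exact_mod_cast (tau_pos t).ne'
  have hT2 : (tau t : ℂ) ^ 2 = 1 + 4 * (t : ℂ) ^ 2 := by exact_mod_cast tau_sq t
  have hfac : (tau t : ℂ) ^ 2 = (1 - 2 * t * I) * (1 + 2 * t * I) := by
    rw [hT2]
    linear_combination (4 * (t : ℂ) ^ 2) * Complex.I_sq
  have hne : (1 - 2 * t * I : ℂ) ≠ 0 := by
    intro h0
    rw [h0, zero_mul] at hfac
    exact hT (pow_eq_zero_iff (by norm_num) |>.1 hfac)
  have step1 : dd t s lam k - cc t s lam k ^ 2 / (4 * (-2 * Real.pi : ℂ))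
      = -((Real.pi : ℂ) * ((lam : ℂ) + s + k / 2) ^ 2) * (1 + 2 * t * I) / (tau t : ℂ) ^ 2 := by
    unfold dd cc
    push_cast
    field_simp
    ring_nf
    simp only [Complex.I_sq]
    ring
  rw [step1]
  have step2 : -((Real.pi * (lam + s + (k : ℝ) / 2) ^ 2 : ℝ) : ℂ) / (1 - 2 * t * I)
      = -((Real.pi : ℂ) * ((lam : ℂ) + s + k / 2) ^ 2) * (1 + 2 * t * I) / (tau t : ℂ) ^ 2 := by
    rw [hfac]
    have hne2 : (1 + 2 * t * I : ℂ) ≠ 0 := by
      intro h0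
      rw [h0, mul_zero] at hfac
      exact hT (pow_eq_zero_iff (by norm_num) |>.1 hfac)
    rw [div_eq_div_iff hne (mul_ne_zero hne hne2)]
    push_cast
    ring
  rw [step2]

variable {m : ℕ}

/-- the density -/
noncomputable def Dn (ξ : Fin m → ℝ) : ℝ :=
  ∏ j, (Real.sqrt 2 * Real.exp (-2 * Real.pi * ξ j ^ 2))

lemma Dn_nonneg (ξ : Fin m → ℝ) : 0 ≤ Dn ξ := Finset.prod_nonneg (fun _ _ => by positivity)

lemma Dn_meas : Measurable (Dn : (Fin m → ℝ) → ℝ) := by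
  unfold Dn
  fun_prop

lemma one_int : Integrable (fun x : ℝ => Real.sqrt 2 * Real.exp (-2 * Real.pi * x ^ 2)) := by
  apply Integrable.const_mul
  have := integrable_exp_neg_mul_sq (b := 2 * Real.pi) (by positivity)
  simpa [neg_mul] using this

lemma one_integral : ∫ x : ℝ, Real.sqrt 2 * Real.exp (-2 * Real.pi * x ^ 2) = 1 := by
  rw [integral_const_mul]
  have := integral_gaussian (2 * Real.pi)
  have h : ∀ x : ℝ, Real.exp (-2 * Real.pi * x ^ 2) = Real.exp (-(2 * Real.pi) * x ^ 2) := by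
    intro x; congr 1; ring
  simp_rw [h, this]
  rw [← Real.sqrt_mul (by norm_num)]
  have : 2 * (Real.pi / (2 * Real.pi)) = 1 := by
    field_simp
  rw [this, Real.sqrt_one]

lemma Dn_lint : ∫⁻ ξ : Fin m → ℝ, ENNReal.ofReal (Dn ξ) = 1 := by
  have hint : Integrable (Dn : (Fin m → ℝ) → ℝ) := by
    unfold Dn
    exact Integrable.fintype_prod (f := fun (_ : Fin m) (x : ℝ) =>
      Real.sqrt 2 * Real.exp (-2 * Real.pi * x ^ 2)) (μ := fun _ => volume) (fun _ => one_int)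
  rw [← ofReal_integral_eq_lintegral_ofReal hint (Filter.Eventually.of_forall Dn_nonneg)]
  unfold Dn
  rw [integral_fintype_prod_volume_eq_prod (fun (_ : Fin m) (x : ℝ) =>
      Real.sqrt 2 * Real.exp (-2 * Real.pi * x ^ 2))]
  simp only [one_integral]
  simp

lemma ek_prod (k : Fin m → ℤ) (v : Fin m → ℝ) : ek k v = ∏ j, e1 (k j) (v j) := by
  unfold ek e1
  rw [← Complex.exp_sum]
  congr 1
  push_cast
  rw [Finset.mul_sum]

lemma meas_trig (t : ℝ) (S : Finset (Fin m → ℤ)) (c : (Fin m → ℤ) → ℂ) (lam v : Fin m → ℝ) :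
    Measurable (fun ξ : Fin m → ℝ => trig S (fun k => c k * beta t lam ξ k) v) := by
  unfold trig beta
  fun_prop

lemma jensen {g : (Fin m → ℝ) → ℂ} (hg : Measurable g) {q : ℝ} (hq : 1 ≤ q) :
    (∫⁻ ξ : Fin m → ℝ, ENNReal.ofReal (Dn ξ) * ‖g ξ‖ₑ) ^ q ≤
      ∫⁻ ξ : Fin m → ℝ, ENNReal.ofReal (Dn ξ) * ‖g ξ‖ₑ ^ q := by
  have hD : Measurable (fun ξ : Fin m → ℝ => ENNReal.ofReal (Dn ξ)) := Dn_meas.ennreal_ofReal
  let μ : Measure (Fin m → ℝ) := volume.withDensity (fun ξ => ENNReal.ofReal (Dn ξ))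
  have : IsProbabilityMeasure μ := ⟨by
    simp only [μ]
    rw [withDensity_apply _ MeasurableSet.univ, Measure.restrict_univ, Dn_lint]⟩
  have h := eLpNorm'_le_eLpNorm'_of_exponent_le (f := g) (p := 1) (q := q) one_pos hq μ
    hg.aestronglyMeasurable
  have hq0 : 0 < q := by linarith
  rw [eLpNorm'_eq_lintegral_enorm, eLpNorm'_eq_lintegral_enorm] at h
  simp only [ENNReal.rpow_one, div_one] at h
  have h2 := ENNReal.rpow_le_rpow h hq0.le
  rw [← ENNReal.rpow_mul, one_div, inv_mul_cancel₀ hq0.ne', ENNReal.rpow_one] at h2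
  have e1 : ∫⁻ a, ‖g a‖ₑ ∂μ = ∫⁻ ξ : Fin m → ℝ, ENNReal.ofReal (Dn ξ) * ‖g ξ‖ₑ := by
    simp only [μ]
    rw [lintegral_withDensity_eq_lintegral_mul _ hD hg.enorm]
    rfl
  have e2 : ∫⁻ a, ‖g a‖ₑ ^ q ∂μ = ∫⁻ ξ : Fin m → ℝ, ENNReal.ofReal (Dn ξ) * ‖g ξ‖ₑ ^ q := by
    simp only [μ]
    rw [lintegral_withDensity_eq_lintegral_mul _ hD (hg.enorm.pow_const q)]
    rfl
  rwa [e1, e2] at h2

theorem gau2 : Gau2Stm := by
  intro m q t S c lam s hq hs
  set v : Fin m → ℝ := fun j => -(2 * t / tau t ^ 2) * s j with hv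
  -- representation
  have hrep : FF t S c (fun j => lam j + s j) = ∫ ξ : Fin m → ℝ,
      ((Dn ξ : ℝ) : ℂ) * (∏ j, U1 t (s j) (lam j) (ξ j)) *
        trig S (fun k => c k * beta t lam ξ k) v := by
    have hpt : ∀ ξ : Fin m → ℝ, ((Dn ξ : ℝ) : ℂ) * (∏ j, U1 t (s j) (lam j) (ξ j)) *
        trig S (fun k => c k * beta t lam ξ k) v
        = ∑ k ∈ S, c k * ∏ j, f1 t (s j) (lam j) (k j) (ξ j) := by
      intro ξ
      unfold trig
      rw [Finset.mul_sum]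
      refine Finset.sum_congr rfl (fun k _ => ?_)
      rw [ek_prod]
      have hb : beta t lam ξ k = ∏ j, b1 t (lam j) (ξ j) (k j) := rfl
      dsimp only
      rw [hb]
      unfold Dn f1
      rw [Complex.ofReal_prod, Finset.prod_mul_distrib, Finset.prod_mul_distrib,
        Finset.prod_mul_distrib]
      ring
    simp_rw [hpt]
    rw [integral_finsetSum]
    · unfold FF
      refine Finset.sum_congr rfl (fun k _ => ?_)
      rw [integral_const_mul]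
      congr 1
      rw [integral_fintype_prod_volume_eq_prod (fun (j : Fin m) (x : ℝ) =>
        f1 t (s j) (lam j) (k j) x)]
      refine Finset.prod_congr rfl (fun j _ => ?_)
      exact (f1_integral t (s j) (lam j) (k j)).symm
    · intro k _
      apply Integrable.const_mul
      exact Integrable.fintype_prod (f := fun (j : Fin m) (x : ℝ) =>
        f1 t (s j) (lam j) (k j) x) (μ := fun _ => volume) (fun j => f1_int _ _ _ _)
  have hq0 : 0 ≤ q := by linarith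
  have hbound : ‖FF t S c (fun j => lam j + s j)‖ₑ ≤ ENNReal.ofReal (Real.exp (Real.pi * m)) *
      ∫⁻ ξ : Fin m → ℝ, ENNReal.ofReal (Dn ξ) * ‖trig S (fun k => c k * beta t lam ξ k) v‖ₑ := by
    rw [hrep]
    refine (enorm_integral_le_lintegral_enorm _).trans ?_
    have hm : Measurable (fun ξ : Fin m → ℝ => ENNReal.ofReal (Dn ξ) *
        ‖trig S (fun k => c k * beta t lam ξ k) v‖ₑ) :=
      ((Dn_meas (m := m)).ennreal_ofReal).mul (meas_trig t S c lam v).enorm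
    rw [← lintegral_const_mul _ hm]
    refine lintegral_mono (fun ξ => ?_)
    rw [enorm_mul, enorm_mul]
    have h1 : ‖((Dn ξ : ℝ) : ℂ)‖ₑ = ENNReal.ofReal (Dn ξ) := by
      rw [← ofReal_norm_eq_enorm, Complex.norm_real, Real.norm_of_nonneg (Dn_nonneg ξ)]
    have h2 : ‖∏ j, U1 t (s j) (lam j) (ξ j)‖ₑ ≤ ENNReal.ofReal (Real.exp (Real.pi * m)) := by
      rw [← ofReal_norm_eq_enorm]
      apply ENNReal.ofReal_le_ofReal
      rw [norm_prod]
      calc ∏ j, ‖U1 t (s j) (lam j) (ξ j)‖ ≤ ∏ _j : Fin m, Real.exp Real.pi :=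
            Finset.prod_le_prod (fun _ _ => norm_nonneg _) (fun j _ => norm_U1 _ _ _ _ (hs j))
        _ = Real.exp (Real.pi * m) := by
            rw [Finset.prod_const, Finset.card_univ, Fintype.card_fin, ← Real.exp_nat_mul]
            congr 1; ring
    rw [h1]
    calc _ ≤ ENNReal.ofReal (Dn ξ) * ENNReal.ofReal (Real.exp (Real.pi * m)) *
          ‖trig S (fun k => c k * beta t lam ξ k) v‖ₑ := by gcongr
      _ = _ := by ring
  calc ‖FF t S c (fun j => lam j + s j)‖ₑ ^ q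
      ≤ (ENNReal.ofReal (Real.exp (Real.pi * m)) *
      ∫⁻ ξ : Fin m → ℝ, ENNReal.ofReal (Dn ξ) *
        ‖trig S (fun k => c k * beta t lam ξ k) v‖ₑ) ^ q := ENNReal.rpow_le_rpow hbound hq0
    _ = ENNReal.ofReal (Real.exp (Real.pi * m)) ^ q *
      (∫⁻ ξ : Fin m → ℝ, ENNReal.ofReal (Dn ξ) *
        ‖trig S (fun k => c k * beta t lam ξ k) v‖ₑ) ^ q := ENNReal.mul_rpow_of_nonneg _ _ hq0
    _ ≤ _ := by
        have e1 : ENNReal.ofReal (Real.exp (Real.pi * m)) ^ q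
            = ENNReal.ofReal (Real.exp (Real.pi * m * q)) := by
          rw [ENNReal.ofReal_rpow_of_pos (Real.exp_pos _), Real.exp_mul (Real.pi * m) q]
        rw [e1]
        gcongr
        exact jensen (meas_trig t S c lam v) hq

end Pool.Agent.W131.LS
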